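import Pool.Agent.helper7.PQ.Spec

/-!
# Row pq:EVE: a value different from `r`
-/

set_option autoImplicit false

open Finset PowerSeries

noncomputable section

namespace Pool.Agent.PQ

open Pool.Agent.EP

/-- `2^b = 8` modulo `24` for odd `b ≥ 3` -/
lemma EVE_two_pow (b : ℕ) (hb : b % 2 = 1) (hb3 : 3 ≤ b) : 2 ^ b % 24 = 8 := by
  obtain ⟨c, rfl⟩ : ∃ c, b = 2 * c + 3 := ⟨(b - 3) / 2, by omega⟩
  induction c with
  | zero => norm_num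
  | succ c ih =>
    have h := ih (by omega) (by omega)
    have h2 : 2 ^ (2 * (c + 1) + 3) = 4 * 2 ^ (2 * c + 3) := by ring
    rw [h2]
    omega

/-- `u^2 = 1` modulo `24` for `u` prime to `6` -/
lemma EVE_sq (u : ℕ) (hu : u.Coprime 6) : u ^ 2 % 24 = 1 := by
  have h2 : ¬ 2 ∣ u := fun h => by
    have h3 := Nat.dvd_gcd h (show 2 ∣ 6 by norm_num)
    rw [hu.gcd_eq_one] at h3
    omega
  have h3 : ¬ 3 ∣ u := fun h => by
    have h3 := Nat.dvd_gcd h (show 3 ∣ 6 by norm_num)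
    rw [hu.gcd_eq_one] at h3
    omega
  have h4 : u % 24 = 1 ∨ u % 24 = 5 ∨ u % 24 = 7 ∨ u % 24 = 11 ∨ u % 24 = 13 ∨ u % 24 = 17 ∨ u % 24 = 19 ∨ u % 24 = 23 := by
    omega
  rw [Nat.pow_mod]
  rcases h4 with h | h | h | h | h | h | h | h <;> rw [h] <;> norm_num

lemma EVE_mm (b n₀ u₀ : ℕ) (hb : b % 2 = 1) (hb3 : 3 ≤ b) (hn : 0 < n₀) (hu : u₀.Coprime 6) :
    mm b n₀ u₀ % 24 = 7 := by
  have h1 := EVE_two_pow b hb hb3
  have h2 := EVE_sq u₀ hu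
  have h3 : (2 ^ b * u₀ ^ 2) % 24 = 8 := by
    rw [Nat.mul_mod, h1, h2]
  unfold mm
  omega

/-- `(-1)^(4j) = 1` -/
lemma EVE_pow (μ L j : ℕ) (h : L ∣ μ + 1) : μ ^ (4 * j) ≡ 1 [MOD L] := by
  have h1 : μ ^ 2 ≡ 1 [MOD L] := by
    have h2 : (μ + 1) * μ ≡ 0 [MOD L] := (Nat.modEq_zero_iff_dvd).2 (Dvd.dvd.mul_right h μ)
    have h3 : μ + 1 ≡ 0 [MOD L] := (Nat.modEq_zero_iff_dvd).2 h
    have h4 : μ ^ 2 + (μ + 1) ≡ 1 + (μ + 1) [MOD L] := by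
      have h5 : μ ^ 2 + (μ + 1) = (μ + 1) * μ + 1 := by ring
      rw [h5]
      exact (h2.add_right 1).trans (by
        have h6 : 0 + 1 ≡ 1 + 0 [MOD L] := by rfl
        exact h6.trans (h3.symm.add_left 1))
    exact Nat.ModEq.add_right_cancel' _ h4
  have h2 : μ ^ (4 * j) = (μ ^ 2) ^ (2 * j) := by
    rw [← pow_mul]; congr 1; ring
  rw [h2]
  have h3 := h1.pow (2 * j)
  rwa [one_pow] at h3

theorem EVE (hEVK : EVK_stmt) (hC1 : C1_stmt) (hERB : ERB_stmt) (hNR : NR_stmt) : EVE_stmt := by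
  intro b t n₀ u₀ μ r s e P P' j hE hP hP' he hExc hne
  obtain ⟨hb, hb3, ht, hr, hn₀, hrn, hu₀, hcop, hs, hcard, hμ, hdvd⟩ := id hE
  obtain ⟨hPp, hPk, hPμ, hPs⟩ := id hP
  obtain ⟨hP'p, hP'm, hP's⟩ := id hP'
  have hm := EVE_mm b n₀ u₀ hb hb3 hn₀ hu₀
  have hLμ : 24 * t * 2 ^ b ∣ μ + 1 := (Dvd.intro _ rfl).trans hdvd
  have h24L : 24 ∣ 24 * t * 2 ^ b := ⟨t * 2 ^ b, by ring⟩
  have h24μ : 24 ∣ μ + 1 := h24L.trans hLμ
  have hμ8 : μ % 8 = 7 := by omega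
  have hM : (μ ^ (4 * j) * P') % (24 * t * 2 ^ b) = mm b n₀ u₀ % (24 * t * 2 ^ b) := by
    have h1 : μ ^ (4 * j) * P' ≡ 1 * P' [MOD (24 * t * 2 ^ b)] := (EVE_pow μ _ j hLμ).mul_right P'
    rw [one_mul] at h1
    exact h1.trans hP'm
  have hM24 : (μ ^ (4 * j) * P') % 24 = 7 := by
    have h1 : μ ^ (4 * j) * P' ≡ mm b n₀ u₀ [MOD 24] := Nat.ModEq.of_dvd h24L hM
    rw [← hm]
    exact h1
  have hk24 : ((∏ q ∈ s, q) * P) % 24 = 1 := by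
    have h0 : 1 < 24 * t * 2 ^ b := by
      have h1 : 1 ≤ 2 ^ b := Nat.one_le_two_pow
      nlinarith
    have h1 : (∏ q ∈ s, q) * P ≡ 1 [MOD (24 * t * 2 ^ b)] := by
      show _ % _ = _ % _
      rw [hPk, Nat.mod_eq_of_lt h0]
    have h2 : (∏ q ∈ s, q) * P ≡ 1 [MOD 24] := Nat.ModEq.of_dvd h24L h1
    exact h2
  have hqM : ∀ q ∈ s, q ∣ μ ^ (4 * j) * P' + 1 := by
    intro q hq
    have h1 : q ∣ μ + 1 := (Finset.dvd_prod_of_mem (fun q => q) hq).trans ((Dvd.intro_left _ rfl).trans hdvd)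
    have h2 : μ ^ (4 * j) * P' + 1 ≡ 1 * P' + 1 [MOD q] := ((EVE_pow μ q j h1).mul_right P').add_right 1
    rw [one_mul] at h2
    exact (Nat.modEq_zero_iff_dvd).1 (h2.trans ((Nat.modEq_zero_iff_dvd).2 (hP's q hq)))
  apply hEVK b (∏ q ∈ s, q) (μ ^ (4 * j)) P P' r hb hb3 hPp hP'p (by omega) (by omega)
  · rw [Nat.mul_mod]
    have h1 : ((∏ q ∈ s, q) * P) % 8 = 1 := by omega
    have h2 : (μ ^ (4 * j) * P') % 8 = 7 := by omega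
    rw [h1, h2]
  · exact hExc
  · intro u hu
    apply Nat.Coprime.prod_left
    intro q hq
    obtain ⟨hqp, hq24, _⟩ := hs q hq
    exact (Nat.Prime.coprime_iff_not_dvd hqp).2 (hNR q b _ u hqp (by omega) hb (hqM q hq) hu)
  · intro u hu
    exact Nat.Coprime.pow_right _ (((Nat.Prime.coprime_iff_not_dvd hμ).2 (hNR μ b _ u hμ hμ8 hb hPμ hu)).symm)
  · exact hERB b t n₀ u₀ μ r s P _ hE hP
  · rw [hC1 b t (mm b n₀ u₀) r ((∏ q ∈ s, q) * P) (μ ^ (4 * j) * P') hb hb3 ht hr hm hPk hM,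
      he ((∏ q ∈ s, q) * P) (μ ^ (4 * j) * P') hPk hM]
    intro h0
    exact hne (CharTwo.add_eq_zero.1 h0)

end Pool.Agent.PQ
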